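import Pool.Agent.K6.H53.CMO.Stm

namespace Pool.Agent.K6.H53.CMO

open Complex Filter Topology Finset MeasureTheory

namespace MUP

theorem key (f : ℕ → ℂ) (hf : Small f) (ε : ℝ) (hε : 0 < ε) :
    ∃ C : ℝ, 0 ≤ C ∧ ∀ t : ℝ, 1 < t →
      ‖S f ⌊t⌋₊‖ ≤ C * t ^ (-1 : ℝ) + ε * t ^ (-(1/2) : ℝ) := by
  obtain ⟨N₀, hN₀⟩ := hf (ε / 2) (by positivity)
  refine ⟨(∑ n ∈ Finset.range N₀, ‖S f n‖) * (N₀ + 1),
    mul_nonneg (Finset.sum_nonneg (fun _ _ => norm_nonneg _)) (by positivity), fun t ht => ?_⟩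
  have ht0 : 0 < t := by linarith
  have hlt : t < (⌊t⌋₊ : ℝ) + 1 := Nat.lt_floor_add_one t
  have h1 : 1 ≤ ⌊t⌋₊ := by
    rw [Nat.one_le_floor_iff]; exact ht.le
  have h1' : (1 : ℝ) ≤ (⌊t⌋₊ : ℝ) := by exact_mod_cast h1
  have hs0 : 0 ≤ ∑ n ∈ Finset.range N₀, ‖S f n‖ := Finset.sum_nonneg (fun _ _ => norm_nonneg _)
  have hp1 : 0 ≤ t ^ (-1 : ℝ) := Real.rpow_nonneg ht0.le _
  have hp2 : 0 ≤ t ^ (-(1/2) : ℝ) := Real.rpow_nonneg ht0.le _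
  by_cases hN : N₀ ≤ ⌊t⌋₊
  · have h2 := hN₀ _ hN
    have h3 : Real.sqrt t ≤ 2 * Real.sqrt (⌊t⌋₊ : ℝ) := by
      rw [show (2 : ℝ) * Real.sqrt (⌊t⌋₊ : ℝ) = Real.sqrt (4 * (⌊t⌋₊ : ℝ)) by
        rw [Real.sqrt_mul (by norm_num), show (4 : ℝ) = 2 ^ 2 by norm_num,
          Real.sqrt_sq (by norm_num)]]
      exact Real.sqrt_le_sqrt (by linarith)
    have hst : 0 < Real.sqrt t := Real.sqrt_pos.2 ht0
    have hsN : 0 < Real.sqrt (⌊t⌋₊ : ℝ) := Real.sqrt_pos.2 (by linarith)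
    have h4 : t ^ (-(1/2) : ℝ) = 1 / Real.sqrt t := by
      rw [Real.rpow_neg ht0.le, ← Real.sqrt_eq_rpow, inv_eq_one_div]
    have h5 : ε / 2 / Real.sqrt (⌊t⌋₊ : ℝ) ≤ ε * (1 / Real.sqrt t) := by
      rw [mul_one_div, div_div, div_le_div_iff₀ (by positivity) hst]
      nlinarith
    have h6 : 0 ≤ (∑ n ∈ Finset.range N₀, ‖S f n‖) * (N₀ + 1) * t ^ (-1 : ℝ) := by positivity
    rw [h4] at *
    linarith
  · push Not at hN
    have h2 : ‖S f ⌊t⌋₊‖ ≤ ∑ n ∈ Finset.range N₀, ‖S f n‖ :=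
      Finset.single_le_sum (f := fun n => ‖S f n‖) (fun _ _ => norm_nonneg _)
        (Finset.mem_range.2 hN)
    have h3 : t ≤ (N₀ : ℝ) + 1 := by
      have : (⌊t⌋₊ : ℝ) ≤ N₀ := by exact_mod_cast hN.le
      linarith
    have h4 : 1 ≤ ((N₀ : ℝ) + 1) * t ^ (-1 : ℝ) := by
      rw [Real.rpow_neg_one, ← div_eq_mul_inv, le_div_iff₀ ht0]; linarith
    have h5 : ∑ n ∈ Finset.range N₀, ‖S f n‖ ≤
        (∑ n ∈ Finset.range N₀, ‖S f n‖) * (N₀ + 1) * t ^ (-1 : ℝ) := by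
      rw [mul_assoc]
      exact le_mul_of_one_le_right hs0 h4
    have h6 : 0 ≤ ε * t ^ (-(1/2) : ℝ) := by positivity
    linarith

theorem bound (f : ℕ → ℂ) (C ε : ℝ)
    (hC : ∀ t : ℝ, 1 < t → ‖S f ⌊t⌋₊‖ ≤ C * t ^ (-1 : ℝ) + ε * t ^ (-(1/2) : ℝ))
    (x : ℝ) (hx : -1/2 < x) :
    ‖M f (x : ℂ)‖ ≤ C * (1 / (x + 1)) + ε * (1 / (x + 1/2)) := by
  have e1 : M f (x : ℂ) = ∫ t in Set.Ioi (1 : ℝ), (t : ℂ) ^ (-(x : ℂ) - 1) • S f ⌊t⌋₊ := by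
    unfold M mellin
    rw [setIntegral_eq_of_subset_of_forall_sdiff_eq_zero (s := Set.Ici (1 : ℝ))
      measurableSet_Ioi (Set.Ici_subset_Ioi.2 zero_lt_one), integral_Ici_eq_integral_Ioi]
    rintro t ⟨_, ht⟩
    rw [Set.mem_Ici, not_le] at ht
    have h0 : S f ⌊t⌋₊ = 0 := by
      rw [Nat.floor_eq_zero.2 ht]; simp [S]
    change (t : ℂ) ^ (-(x : ℂ) - 1) • S f ⌊t⌋₊ = 0
    rw [h0, smul_zero]
  have i1 : IntegrableOn (fun t : ℝ => t ^ (-x - 2)) (Set.Ioi 1) :=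
    integrableOn_Ioi_rpow_of_lt (by linarith) zero_lt_one
  have i2 : IntegrableOn (fun t : ℝ => t ^ (-x - 3/2)) (Set.Ioi 1) :=
    integrableOn_Ioi_rpow_of_lt (by linarith) zero_lt_one
  have i3 : ∫ t in Set.Ioi (1 : ℝ), (C * t ^ (-x - 2) + ε * t ^ (-x - 3/2)) =
      C * (1 / (x + 1)) + ε * (1 / (x + 1/2)) := by
    rw [integral_add (i1.const_mul C) (i2.const_mul ε), integral_const_mul, integral_const_mul,
      integral_Ioi_rpow_of_lt (by linarith) zero_lt_one,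
      integral_Ioi_rpow_of_lt (by linarith) zero_lt_one, Real.one_rpow, Real.one_rpow]
    have a1 : x + 1 ≠ 0 := by linarith
    have a2 : x + 1/2 ≠ 0 := by linarith
    have a3 : -x - 2 + 1 = -(x + 1) := by ring
    have a4 : -x - 3/2 + 1 = -(x + 1/2) := by ring
    rw [a3, a4, neg_div_neg_eq, neg_div_neg_eq]
  rw [e1, ← i3]
  refine norm_integral_le_of_norm_le ((i1.const_mul C).add (i2.const_mul ε)) ?_
  refine (ae_restrict_iff' measurableSet_Ioi).2 (Eventually.of_forall (fun t ht => ?_))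
  have ht1 : (1 : ℝ) < t := ht
  have ht0 : 0 < t := by linarith
  rw [norm_smul, Complex.norm_cpow_eq_rpow_re_of_pos ht0]
  have e2 : (-(x : ℂ) - 1).re = -x - 1 := by simp
  rw [e2]
  have e3 : t ^ (-x - 2) = t ^ (-x - 1) * t ^ (-1 : ℝ) := by
    rw [← Real.rpow_add ht0]; congr 1; ring
  have e4 : t ^ (-x - 3/2) = t ^ (-x - 1) * t ^ (-(1/2) : ℝ) := by
    rw [← Real.rpow_add ht0]; congr 1; ring
  rw [e3, e4]
  have h0 : 0 ≤ t ^ (-x - 1) := Real.rpow_nonneg ht0.le _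
  calc t ^ (-x - 1) * ‖S f ⌊t⌋₊‖
      ≤ t ^ (-x - 1) * (C * t ^ (-1 : ℝ) + ε * t ^ (-(1/2) : ℝ)) :=
        mul_le_mul_of_nonneg_left (hC t ht1) h0
    _ = _ := by ring

end MUP

theorem t_MUP : S_MUP := by
  intro f hf
  rw [Metric.tendsto_nhdsWithin_nhds]
  intro ε hε
  obtain ⟨C, hC0, hC⟩ := MUP.key f hf (ε / 4) (by positivity)
  refine ⟨ε / (4 * (C + 1)), by positivity, fun {x} hx hd => ?_⟩
  have hx' : -1/2 < x := hx
  have hb := MUP.bound f C (ε / 4) hC x hx'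
  have hy : 0 < x + 1/2 := by linarith
  have hy2 : x + 1/2 < ε / (4 * (C + 1)) := by
    rw [Real.dist_eq] at hd
    have := lt_of_abs_lt hd
    linarith
  have hnn : 0 ≤ (x + 1/2) * ‖M f (x : ℂ)‖ := mul_nonneg hy.le (norm_nonneg _)
  rw [Real.dist_eq, sub_zero, abs_of_nonneg hnn]
  have h1 : (x + 1/2) * ‖M f (x : ℂ)‖ ≤
      (x + 1/2) * (C * (1 / (x + 1)) + ε / 4 * (1 / (x + 1/2))) :=
    mul_le_mul_of_nonneg_left hb hy.le
  have h2 : (x + 1/2) * (C * (1 / (x + 1)) + ε / 4 * (1 / (x + 1/2))) =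
      (x + 1/2) * C * (1 / (x + 1)) + ε / 4 := by
    have e : (x + 1/2) * (1 / (x + 1/2)) = 1 := mul_one_div_cancel hy.ne'
    calc (x + 1/2) * (C * (1 / (x + 1)) + ε / 4 * (1 / (x + 1/2)))
        = (x + 1/2) * C * (1 / (x + 1)) + ε / 4 * ((x + 1/2) * (1 / (x + 1/2))) := by ring
      _ = _ := by rw [e, mul_one]
  have h3 : 1 / (x + 1) ≤ 2 := by
    rw [div_le_iff₀ (by linarith)]; linarith
  have h4 : (x + 1/2) * C * (1 / (x + 1)) ≤ (x + 1/2) * C * 2 :=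
    mul_le_mul_of_nonneg_left h3 (mul_nonneg hy.le hC0)
  have h5 : (x + 1/2) * (C + 1) < ε / 4 := by
    rw [lt_div_iff₀ (by positivity)] at hy2
    linarith
  nlinarith

end Pool.Agent.K6.H53.CMO
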