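import Mathlib

/-!
# CMO functions with `|f(p)| ≤ 1/p` (MP_768c9c_nt): statements of the pieces

`f` completely multiplicative, `|f(n)| ≤ 1/n`, partial sums `o(N^(-1/2))`: contradiction.
Paper proof. `F(s) = Σ f(n) n^{-s} = s M(s)`, `M(s) = ∫_1^∞ S(t) t^{-s-1} dt` analytic for
`Re s > -1/2`; `D(s) = Σ f(m)^2 m^{-2s}` analytic and nonzero there; `F = V D` with
`V(s) = Σ μ²(n) f(n) n^{-s}`; `w = (1/n) * (μ² f)`, `a = w * conj w ≥ 0` (multiplicative,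
`a(p^j) = p^{-j} (2 Re(1 + p f(p)) + (j-1) |1 + p f(p)|²)`).
`Q = Z M / D` (`Z(s) = s ζ(1+s)`) is `Σ w(n) n^{-s}` for `Re s > 0`, and
`P(s) = Q(s) conj(Q(conj s)) = Σ a(n) n^{-s}`; so `P(x) ≥ 1` on `(-1/2, ∞)` and
`Σ_p a(p) ≤ P(0)`, hence `|ζ(2x+2)| ≤ K |D(x)| ≤ K |Z(x) M(x)|`: contradiction as `x → -1/2`.
-/

namespace Pool.Agent.K6.H53.CMO

open Complex Filter Topology Finset
open scoped ComplexOrder

/-- partial sums -/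
noncomputable def S (f : ℕ → ℂ) (N : ℕ) : ℂ := ∑ n ∈ Finset.Icc 1 N, f n

/-- the partial sums are `o(N^(-1/2))` -/
def Small (f : ℕ → ℂ) : Prop :=
  ∀ ε : ℝ, 0 < ε → ∃ N₀ : ℕ, ∀ N : ℕ, N₀ ≤ N → ‖S f N‖ ≤ ε / Real.sqrt N

/-- completely multiplicative, with `f 0 = 0` -/
structure CM (f : ℕ → ℂ) : Prop where
  zero : f 0 = 0
  one : f 1 = 1
  mul : ∀ m n : ℕ, f (m * n) = f m * f n

/-- `|f n| ≤ 1/n` -/
def Bd (f : ℕ → ℂ) : Prop := ∀ n : ℕ, 1 ≤ n → ‖f n‖ ≤ 1 / (n : ℝ)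

noncomputable def M (f : ℕ → ℂ) (s : ℂ) : ℂ := mellin (fun t : ℝ => S f ⌊t⌋₊) (-s)

noncomputable def Z : ℂ → ℂ := Function.update (fun s : ℂ => s * riemannZeta (1 + s)) 0 1

noncomputable def D (f : ℕ → ℂ) (s : ℂ) : ℂ := LSeries (fun n => f n ^ 2) (2 * s)

/-- `f` restricted to the squarefree numbers -/
noncomputable def v (f : ℕ → ℂ) (n : ℕ) : ℂ := by
  classical exact if Squarefree n then f n else 0

noncomputable def w (f : ℕ → ℂ) : ℕ → ℂ := LSeries.convolution (fun n => 1 / (n : ℂ)) (v f)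

noncomputable def a (f : ℕ → ℂ) : ℕ → ℂ :=
  LSeries.convolution (w f) (fun n => (starRingEnd ℂ) (w f n))

noncomputable def Q (f : ℕ → ℂ) (s : ℂ) : ℂ := Z s * M f s / D f s

noncomputable def P (f : ℕ → ℂ) (s : ℂ) : ℂ :=
  Q f s * (starRingEnd ℂ) (Q f ((starRingEnd ℂ) s))

/-- the half plane `Re s > -1/2` -/
def HP : Set ℂ := {s : ℂ | (-1/2 : ℝ) < s.re}

/-- `M` is analytic on the half plane -/
def S_MAN : Prop := ∀ f : ℕ → ℂ, Small f → DifferentiableOn ℂ (M f) HP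

/-- `s M(s)` is the Dirichlet series for `Re s > 0` -/
def S_MLS : Prop := ∀ f : ℕ → ℂ, CM f → Bd f → Small f → ∀ s : ℂ, 0 < s.re →
  s * M f s = LSeries f s

/-- `M(x) = o(1/(x+1/2))` -/
def S_MUP : Prop := ∀ f : ℕ → ℂ, Small f →
  Tendsto (fun x : ℝ => (x + 1/2) * ‖M f (x : ℂ)‖) (𝓝[>] (-1/2 : ℝ)) (𝓝 0)

/-- `Z` is entire -/
def S_ZED : Prop := Differentiable ℂ Z

/-- `D` is analytic without zeros on the half plane -/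
def S_DAN : Prop := ∀ f : ℕ → ℂ, CM f → Bd f →
  DifferentiableOn ℂ (D f) HP ∧ ∀ s ∈ HP, D f s ≠ 0

/-- Euler products: `F = V D` -/
def S_EUL : Prop := ∀ f : ℕ → ℂ, CM f → Bd f → ∀ s : ℂ, 0 < s.re →
  LSeries f s = LSeries (v f) s * D f s

/-- the series of `w` -/
def S_WLS : Prop := ∀ f : ℕ → ℂ, CM f → Bd f → ∀ s : ℂ, 0 < s.re →
  LSeriesSummable (w f) s ∧ riemannZeta (1 + s) * LSeries (v f) s = LSeries (w f) s

/-- the series of `b * conj b` -/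
def S_ALS : Prop := ∀ b : ℕ → ℂ, (∀ s : ℂ, 0 < s.re → LSeriesSummable b s) →
  ∀ s : ℂ, 0 < s.re →
    LSeriesSummable (LSeries.convolution b (fun n => (starRingEnd ℂ) (b n))) s ∧
    LSeries b s * (starRingEnd ℂ) (LSeries b ((starRingEnd ℂ) s)) =
      LSeries (LSeries.convolution b (fun n => (starRingEnd ℂ) (b n))) s

/-- positivity of `a` -/
def S_APOS : Prop := ∀ f : ℕ → ℂ, CM f → Bd f → ∀ n : ℕ, 0 ≤ a f n

/-- the values of `a` at 1 and at the primes -/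
def S_AVAL : Prop := ∀ f : ℕ → ℂ, CM f →
  a f 1 = 1 ∧ ∀ p : ℕ, p.Prime → (a f p).re = 2 * ((f p).re + 1 / (p : ℝ))

/-- a function with a nonnegative Dirichlet series is at least 1 to the left as well -/
def S_PPOS : Prop := ∀ (b : ℕ → ℂ) (H : ℂ → ℂ), (∀ n, 0 ≤ b n) → b 1 = 1 →
  (∀ s : ℂ, 0 < s.re → LSeriesSummable b s) → DifferentiableOn ℂ H HP →
  (∀ s : ℂ, 0 < s.re → H s = LSeries b s) → ∀ x : ℝ, -1/2 < x → 1 ≤ (H (x : ℂ)).re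

/-- the sums of the coefficients are bounded by the value at 0 -/
def S_PSUM : Prop := ∀ (b : ℕ → ℂ) (H : ℂ → ℂ), (∀ n, 0 ≤ b n) →
  (∀ s : ℂ, 0 < s.re → LSeriesSummable b s) → DifferentiableOn ℂ H HP →
  (∀ s : ℂ, 0 < s.re → H s = LSeries b s) →
  ∀ T : Finset ℕ, (∀ n ∈ T, n ≠ 0) → ∑ n ∈ T, (b n).re ≤ (H 0).re

/-- comparison of `ζ(2x+2)` and `D(x)` -/
def S_DLOW : Prop := ∀ f : ℕ → ℂ, CM f → Bd f → ∀ C : ℝ,
  (∀ T : Finset ℕ, (∀ p ∈ T, p.Prime) → ∑ p ∈ T, 2 * ((f p).re + 1 / (p : ℝ)) ≤ C) →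
  ∃ K : ℝ, 0 < K ∧ ∀ x : ℝ, -1/2 < x → x ≤ 0 →
    ‖riemannZeta (2 * (x : ℂ) + 2)‖ ≤ K * ‖D f (x : ℂ)‖

/-- `P` is analytic on the half plane -/
def S_PAN : Prop := ∀ f : ℕ → ℂ, DifferentiableOn ℂ (M f) HP → Differentiable ℂ Z →
  DifferentiableOn ℂ (D f) HP → (∀ s ∈ HP, D f s ≠ 0) → DifferentiableOn ℂ (P f) HP

/-- the final contradiction -/
def S_FIN : Prop := ∀ f : ℕ → ℂ, Differentiable ℂ Z →
  Tendsto (fun x : ℝ => (x + 1/2) * ‖M f (x : ℂ)‖) (𝓝[>] (-1/2 : ℝ)) (𝓝 0) →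
  (∀ x : ℝ, -1/2 < x → D f (x : ℂ) ≠ 0) →
  (∀ x : ℝ, -1/2 < x → 1 ≤ (P f (x : ℂ)).re) →
  (∃ K : ℝ, 0 < K ∧ ∀ x : ℝ, -1/2 < x → x ≤ 0 →
    ‖riemannZeta (2 * (x : ℂ) + 2)‖ ≤ K * ‖D f (x : ℂ)‖) → False

/-- removing one prime -/
def S_RED : Prop := ∀ f : ℕ → ℂ, CM f → Small f → ∀ q : ℕ, q.Prime →
  CM (fun n => if q ∣ n then 0 else f n) ∧ Small (fun n => if q ∣ n then 0 else f n)

/-- the bound on primes gives the bound everywhere -/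
def S_BDP : Prop := ∀ f : ℕ → ℂ, CM f → (∀ p : ℕ, p.Prime → ‖f p‖ ≤ 1 / (p : ℝ)) → Bd f

end Pool.Agent.K6.H53.CMO
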